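import Pool.Agent.Lib.MP_60ff09_nt.V5All
import Pool.Agent.Lib.MP_696deb_nt.B3.SA1

set_option autoImplicit false

open Pool.Agent.Lib.MP_60ff09_nt.V4 Pool.Agent.Lib.MP_696deb_nt.B2.Stmt

namespace Pool.Agent.Retired.MP_60ff09_nt.Converse15

/-- A converse theorem for triple products of weights `(2, 1, 1)`. Let `f` be the newform of level
15. Let `V_g`, `V_h` be two-dimensional Artin representations such that `V_g ⊗ V_h` is the sum of
the quadratic characters of four squarefree integers `d i`. If the Selmer groups at the prime two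
of the four quadratic twists of `X_0(15)` have corank at most one, then the order of vanishing of
the triple product `L`-function at the centre is the dimension of the space of equivariant maps
from `V_g ⊗ V_h` to `L ⊗ X_1(15)(H)`, and both are the number of twists of sign minus one. -/
theorem result (d : Fin 4 → ℤ) (hd : ∀ i, Squarefree (d i))
    (E : Fin 4 → WeierstrassCurve ℚ)
    (hE : ∀ i, E i = { a₁ := 0, a₂ := 0, a₃ := 0, a₄ := -12987 * (d i : ℚ) ^ 2,
                       a₆ := -263466 * (d i : ℚ) ^ 3 })
    (hS : ∀ i, CorankLE (E i) 1) :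
    ∃ a : ℕ → ℤ,
      (∀ z : ℂ, 0 < z.im →
        HasSum (fun n : ℕ => (a n : ℂ) * Complex.exp (2 * Real.pi * Complex.I * n * z))
          (ModularForm.eta z * ModularForm.eta (3 * z) * ModularForm.eta (5 * z) *
            ModularForm.eta (15 * z))) ∧
      Holds a d (Finset.univ.filter fun i => (d i).sign *
        ((if 3 ∣ d i then 1 else jacobiSym (d i) 3) *
          (if 5 ∣ d i then -1 else jacobiSym (d i) 5)) = -1).card := by
  open Pool.Agent.Lib.MP_696deb_nt Pool.Agent.Lib.MP_60ff09_nt in
  refine ⟨a15, hasSum_a15, fun M L _ _ _ _ _ Vg Vh _ _ hV => beil_all hV hd fun i =>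
    B3.corank_of (hd i) (B3.conv3 _ (hd i)) ?_⟩
  convert hS i
  rw [hE i, Pool.Agent.Lib.MP_696deb_nt.twist15]
  push_cast
  rfl

end Pool.Agent.Retired.MP_60ff09_nt.Converse15
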