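import Pool.Agent.Lib.MP_60ff09_nt.V5All
import Pool.Agent.Lib.MP_696deb_nt.B3.SA1

set_option autoImplicit false

open Filter Topology Pool.Agent.Lib.MP_60ff09_nt.V4

namespace Pool.Agent.Retired.MP_60ff09_nt.Density15

/-- The conjecture of Beilinson for triple products of weights `(2, 1, 1)` in a family of density
one. Let `f` be the newform of level 15 and fix four nonzero integers `e i`. For a proportion one
of the squarefree integers `d`, the conjecture holds for all pairs of two-dimensional Artin
representations `V_g`, `V_h` such that `V_g ⊗ V_h` is the sum of the quadratic characters attached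
to the `d * e i`, and both sides are the number of twists of sign minus one; here `c i` is the
squarefree part of `d * e i`. -/
theorem result (e : Fin 4 → ℤ) (he : ∀ i, e i ≠ 0) :
    ∃ a : ℕ → ℤ,
      (∀ z : ℂ, 0 < z.im →
        HasSum (fun n : ℕ => (a n : ℂ) * Complex.exp (2 * Real.pi * Complex.I * n * z))
          (ModularForm.eta z * ModularForm.eta (3 * z) * ModularForm.eta (5 * z) *
            ModularForm.eta (15 * z))) ∧
      Tendsto (fun X : ℕ =>
        (Set.ncard {d : ℤ | |d| ≤ X ∧ Squarefree d ∧ ∀ c : Fin 4 → ℤ,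
          (∀ i, Squarefree (c i) ∧ IsSquare (d * e i * c i)) →
          Holds a (fun i => d * e i) (Finset.univ.filter fun i => (c i).sign *
            ((if 3 ∣ c i then 1 else jacobiSym (c i) 3) *
              (if 5 ∣ c i then -1 else jacobiSym (c i) 5)) = -1).card} : ℝ) /
          (Set.ncard {d : ℤ | |d| ≤ X ∧ Squarefree d} : ℝ))
        atTop (𝓝 1) := by
  open Pool.Agent.Lib.MP_696deb_nt Pool.Agent.Lib.MP_60ff09_nt in
  refine ⟨a15, hasSum_a15, tendsto_all he B2.smithStmt
    fun d d0 hC c hc M L _ _ _ _ _ Vg Vh _ _ hV => ?_⟩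
  have k0 : ∀ i, d * e i ≠ 0 := fun i => mul_ne_zero d0 (he i)
  obtain rfl : c = fun i => sqf (d * e i) := funext fun i => eq_sqf (k0 i) (hc i).1 (hc i).2
  exact beil_all (hV.sqf k0) (fun i => (hc i).1) fun i =>
    Pool.Agent.Lib.MP_696deb_nt.B3.conv3 _ (hc i).1 (hC i)

end Pool.Agent.Retired.MP_60ff09_nt.Density15
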