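import Pool.Agent.Lib.MP_60ff09_nt.V7Main
import Pool.Agent.Lib.MP_696deb_nt.B10.Fin
import Pool.Agent.Lib.MP_696deb_nt.B10.EEnd
import Pool.Agent.Lib.MP_696deb_nt.B10.CTop

set_option autoImplicit false

open Classical Complex Filter Topology Pool.Agent.Lib.MP_60ff09_nt.V6
open scoped Real UpperHalfPlane

namespace Pool.Agent.Retired.MP_60ff09_nt.DensityS3

/-- The conjecture of Beilinson for triple products of weights `(2, 1, 1)` in families of density
one. Let `f` be the newform of a semistable elliptic curve `W` of odd conductor `N` with no rational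
point of order two. Either its central value `Ω`, divided by the least real period, is a `2`-adic
unit; or it is supersingular at two, the constant `k` of the parametrization has odd numerator and
the discriminant is `-N` times a square.
Fix four integers `e i` that are one modulo four, or just nonzero when the second coefficient of `f`
is even. For a proportion one of the squarefree `d` of the same kind, the conjecture holds for all
pairs of two-dimensional Artin representations `V_g`, `V_h` such that `V_g ⊗ V_h` is the sum of the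
quadratic characters attached to the `d * e i`, and both sides are the number of twists of sign
minus one; here `a i` is the squarefree part of `d * e i`. -/
theorem result
    (W : WeierstrassCurve ℤ) (N : ℕ) (hN : Squarefree N) (hN2 : Odd N) (hN3 : 3 < N)
    (hrad : ∀ p : ℕ, p.Prime → (p : ℤ) ∣ W.Δ → p ∣ N) (hc4 : IsCoprime W.c₄ W.Δ)
    (h2 : ∀ x : ℚ, 4 * x ^ 3 + W.b₂ * x ^ 2 + 2 * W.b₄ * x + W.b₆ ≠ 0)
    (f : CuspForm (CongruenceSubgroup.Gamma0 N) 2) (c : ℕ → ℤ) (hc : c 1 = 1)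
    (hf : ∀ τ : ℍ, HasSum (fun n : ℕ => (c n : ℂ) * cexp (2 * π * I * τ) ^ n) (f τ))
    (hT : ∀ l : ℕ, l.Prime → ¬ l ∣ N → ∀ n : ℕ,
      c (l * n) + (if l ∣ n then l * c (n / l) else 0) = c l * c n)
    (hU : ∀ p : ℕ, p.Prime → p ∣ N → c p ^ 2 = 1 ∧ ∀ n : ℕ, c (p * n) = c p * c n)
    (hW : ∀ τ τ' : ℍ, (τ' : ℂ) = -1 / (N * τ) → f τ' = -(N * τ ^ 2) * f τ)
    (hE : ∀ l : ℕ, l.Prime → ¬ l ∣ N →
      c l = l + 1 - Nat.card (W.map (Int.castRingHom (ZMod l))).toAffine.Point)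
    (F : ℂ → ℂ) (hF : ∀ z : ℂ, F z = ∑' n : ℕ, (c n : ℂ) / n * cexp (2 * π * I * z) ^ n)
    (L : PeriodPair) (h4 : (W.c₄ : ℂ) = 12 * L.g₂) (h6 : (W.c₆ : ℂ) = 216 * L.g₃)
    (k : ℚ) (hL : ∀ γ ∈ CongruenceSubgroup.Gamma0 N, ∀ τ : ℍ,
      k * (F (γ • τ : ℍ) - F τ) ∈ L.lattice)
    (hH : (∃ Ω : ℂ, Tendsto (fun y : ℝ => F (y * I)) (𝓝[>] 0) (𝓝 Ω) ∧
        ∀ m : ℤ, Odd m → m * (k * Ω) / 2 ∉ L.lattice) ∨
      Even (c 2) ∧ Odd k.num ∧ ∃ s : ℤ, W.Δ = -(N * s ^ 2))
    (e : Fin 4 → ℤ) (he : ∀ i, e i % 4 = 1 ∨ e i ≠ 0 ∧ Even (c 2)) :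
    Tendsto (fun X : ℕ =>
      (Set.ncard {d : ℤ | |d| ≤ X ∧ Squarefree d ∧ (d % 4 = 1 ∨ Even (c 2)) ∧
        ∀ a : Fin 4 → ℤ, (∀ i, Squarefree (a i) ∧ IsSquare (d * e i * a i)) →
          HoldsN (W.map (Int.castRingHom ℚ)) N c (fun i => d * e i)
            (Finset.univ.filter fun i => (a i).sign *
              ∏ p ∈ N.primeFactors.filter (fun p : ℕ => ¬ (p : ℤ) ∣ a i),
                -c p * jacobiSym (a i) p = 1).card} : ℝ) /
        (Set.ncard {d : ℤ | |d| ≤ X ∧ Squarefree d ∧ (d % 4 = 1 ∨ Even (c 2))} : ℝ))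
      atTop (𝓝 1) := by
  obtain ⟨C, D, rfl, rfl, rfl, n, h⟩ := Pool.Agent.T10.cnv_ten (Q := (· ≠ 1))
    (@Pool.Agent.T10.te_of_co @Pool.Agent.T10.co_stmt) W N hN hN2 hN3 hrad hc4 h2 f c hc hf
    hT hU hW hE F hF L h4 h6 k hL hH
  have e0 : ∀ i, e i ≠ 0 := fun i => (he i).elim (fun k => by omega) And.left
  refine density7 (nt_of n hE) (fun _ hε => Pool.Agent.B6.S.smith6 hε) (fun _ => .inl) e0
    fun d hd hA i j => h _ (Pool.Agent.Lib.MP_60ff09_nt.V4.sqf_spec
      (mul_ne_zero hd.ne_zero (e0 i))).1 j (or_iff_not_imp_right.2 fun k => sqf_four ?_)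
  rw [Int.mul_emod, hA.resolve_right k, (he i).resolve_right fun j => k j.2]
  rfl

end Pool.Agent.Retired.MP_60ff09_nt.DensityS3
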