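import Pool.Agent.Lib.MP_60ff09_nt.QB.Top

set_option autoImplicit false

open Filter Topology Pool.Agent.Lib.MP_60ff09_nt.QB

namespace Pool.Agent.Retired.MP_60ff09_nt.QuarticBound

/-- One inequality of the conjecture of Beilinson for triple products of weights `(2, 1, 1)`. Let
`f` be the newform of the curve `y ^ 2 = x ^ 3 - B x` with `B` free of fourth powers, and let `g`,
`h` be the theta series of the quartic characters of the Gaussian field given by the fourth roots
of `A` and of `D`. For almost all squarefree `D` prime to `A B`, the number of the four curves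
`y ^ 2 = x ^ 3 - B A ^ a D ^ b x` (`a`, `b` equal to one or three) of root number minus one is at
least the dimension of the space of equivariant maps and at most the order of vanishing. -/
theorem result (B A : ℤ) (hB : ∀ p : ℕ, p.Prime → ¬ (p : ℤ) ^ 4 ∣ B) (hA : Squarefree A)
    (hc : IsCoprime A B) :
    Tendsto (fun X : ℕ =>
      (Set.ncard {D : ℤ | |D| ≤ X ∧ (Squarefree D ∧ IsCoprime D (A * B)) ∧
        BoundQ B A D (minus B A D)} : ℝ) /
      (Set.ncard {D : ℤ | |D| ≤ X ∧ Squarefree D ∧ IsCoprime D (A * B)} : ℝ)) atTop (𝓝 1) :=
  tend_bound hB hA hc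

end Pool.Agent.Retired.MP_60ff09_nt.QuarticBound
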