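import Pool.Agent.Lib.MP_60ff09_nt.QB.Top
import Pool.Agent.Lib.MP_696deb_nt.EU.Main

set_option autoImplicit false

open Filter Topology Pool.Agent.Lib.MP_60ff09_nt.QB

namespace Pool.Agent.Retired.MP_60ff09_nt.QuarticTheta

/-- The conjecture of Beilinson for triple products of weights `(2, 1, 1)` in families of quartic
type. Let `f` be the newform of the curve `y ^ 2 = x ^ 3 - B x` with `B` free of fourth powers, and
let `g`, `h` be the theta series of the quartic characters of the Gaussian field given by the fourth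
roots of `A` and of `D`. For almost all squarefree `D` prime to `A B` such that the four curves
`y ^ 2 = x ^ 3 - B A ^ a D ^ b x` (`a`, `b` equal to one or three) have root number one, the order
of vanishing and the dimension of the space of equivariant maps are both zero. -/
theorem result (B A : ℤ) (hB : ∀ p : ℕ, p.Prime → ¬ (p : ℤ) ^ 4 ∣ B) (hA : Squarefree A)
    (h2 : Odd A) (hc : IsCoprime A B) :
    Tendsto (fun X : ℕ =>
      (Set.ncard {D : ℤ | |D| ≤ X ∧ ((Squarefree D ∧ IsCoprime D (A * B)) ∧ minus B A D = 0) ∧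
        HoldsQ B A D 0} : ℝ) /
      (Set.ncard {D : ℤ | |D| ≤ X ∧ (Squarefree D ∧ IsCoprime D (A * B)) ∧ minus B A D = 0} : ℝ))
      atTop (𝓝 1) := by
  refine tend_zero hB hA h2 hc fun D i F h k h0 hF => ?_
  obtain ⟨q, q1, q2, q3⟩ := exists_odd h.1 k
  exact Pool.Agent.Lib.MP_696deb_nt.EU.conv _ (fam_pw hB hA hc h i) q q1 q2
    (odd_val (Pool.Agent.Lib.MP_696deb_nt.QA.Fam.ne hB) hA hc h q1 (q3.mul_left _) i) h0 F hF.1 hF.2

end Pool.Agent.Retired.MP_60ff09_nt.QuarticTheta
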